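import Pool.Agent.Q291.HEA.Stm2

/-! # Project HEA (helper291), jobs HFIN and ENDS (helper150) -/

set_option autoImplicit false

namespace Pool.Agent.Q150.HEA

open MeasureTheory Filter Topology Set
open Pool.Agent.Q291.HEA

variable {B : ℕ} [NeZero B] {e : ℕ → Bool}

/-- the end of a cell in the direction `s` -/
noncomputable def ee (s : Bool) (n : ℕ) (ω : Bond B e) : Site B e :=
  mid (sInf {j | n ≤ j ∧ (ω.1 j).2 = s}) (ω.1 (sInf {j | n ≤ j ∧ (ω.1 j).2 = s})).1 ω

theorem lend_ee (n : ℕ) (ω : Bond B e) : lend n ω = ee true n ω := rfl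

theorem rend_ee (n : ℕ) (ω : Bond B e) : rend n ω = ee false n ω := rfl

theorem mid_digit (j : ℕ) (i : Fin B) (ω : Bond B e) (k : ℕ) (hk : j < k) :
    (mid j i ω).1.2.2.1 k = ω.1 k := by
  change (if k ≤ j then (0, e k) else ω.1 k) = _
  rw [if_neg (by omega)]

theorem site_ext {v w : Site B e} (h1 : v.1.1 = w.1.1) (h2 : v.1.2.1 = w.1.2.1)
    (h3 : ∀ k, v.1.1 < k → v.1.2.2.1 k = w.1.2.2.1 k) : v = w := by
  apply Subtype.ext
  apply Prod.ext h1
  apply Prod.ext h2
  apply Subtype.ext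
  funext k
  by_cases hk : v.1.1 < k
  · exact h3 k hk
  · rw [v.2 k (by omega), w.2 k (by omega)]

theorem mid_congr {j : ℕ} {i : Fin B} {ω ω' : Bond B e} (h : ∀ k, j < k → ω.1 k = ω'.1 k) :
    mid j i ω = mid j i ω' := by
  refine site_ext (v := mid j i ω) (w := mid j i ω') rfl rfl fun k hk => ?_
  have hk' : j < k := hk
  rw [mid_digit _ _ _ _ hk', mid_digit _ _ _ _ hk', h k hk']

theorem ee_eq {s : Bool} {n j : ℕ} {ω : Bond B e} (h1 : n ≤ j) (h2 : (ω.1 j).2 = s)
    (h3 : ∀ m, n ≤ m → m < j → (ω.1 m).2 ≠ s) : ee s n ω = mid j (ω.1 j).1 ω := by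
  have h4 : sInf {j | n ≤ j ∧ (ω.1 j).2 = s} = j := by
    apply le_antisymm
    · exact Nat.sInf_le ⟨h1, h2⟩
    · have hmem : sInf {j | n ≤ j ∧ (ω.1 j).2 = s} ∈ {j | n ≤ j ∧ (ω.1 j).2 = s} :=
        Nat.sInf_mem ⟨j, h1, h2⟩
      by_contra hcon
      push Not at hcon
      exact h3 _ hmem.1 hcon hmem.2
  unfold ee
  rw [h4]

theorem alt_ex (hA : Alt e) (s : Bool) (n : ℕ) : ∃ k, n ≤ k ∧ e k = s := by
  cases s
  · exact hA.2 n
  · exact hA.1 n

theorem ex_level (hA : Alt e) (s : Bool) (n : ℕ) (ω : Bond B e) :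
    ∃ j, n ≤ j ∧ (ω.1 j).2 = s ∧ ∀ m, n ≤ m → m < j → (ω.1 m).2 ≠ s := by
  obtain ⟨N, hN⟩ := ω.2
  obtain ⟨k, hk, hks⟩ := alt_ex hA s (max n N)
  have hex : ∃ j, n ≤ j ∧ (ω.1 j).2 = s := ⟨k, by omega, by rw [hN k (by omega)]; exact hks⟩
  refine ⟨Nat.find hex, (Nat.find_spec hex).1, (Nat.find_spec hex).2, fun m hm hlt hs => ?_⟩
  exact Nat.find_min hex hlt ⟨hm, hs⟩

theorem cell_fin (n : ℕ) (ω : Bond B e) : (cellb n ω).Finite := by
  apply Set.Finite.of_finite_image (f := fun b : Bond B e => fun k : Fin n => b.1 k)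
    (Set.toFinite _)
  intro b hb b' hb' h
  apply Subtype.ext
  funext k
  by_cases hk : k < n
  · exact congrFun h ⟨k, hk⟩
  · rw [hb k (by omega), hb' k (by omega)]

theorem inner_fin (n : ℕ) (ω : Bond B e) : (inner n ω).Finite := by
  apply Set.Finite.of_finite_image
    (f := fun v : Site B e => (v.1.1, v.1.2.1, fun k : Fin n => v.1.2.2.1 k))
  · apply ((Set.finite_Iio n).prod (Set.finite_univ (α := Fin B × (Fin n → Pos B)))).subset
    rintro _ ⟨v, hv, rfl⟩
    exact ⟨hv.1, mem_univ _⟩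
  · intro v hv w hw h
    have h0 : ((v.1.1, v.1.2.1, fun k : Fin n => v.1.2.2.1 k) : ℕ × Fin B × (Fin n → Pos B)) =
        (w.1.1, w.1.2.1, fun k : Fin n => w.1.2.2.1 k) := h
    rw [Prod.mk.injEq, Prod.mk.injEq] at h0
    obtain ⟨h1, h2, h3⟩ := h0
    apply site_ext h1 h2
    intro k _
    by_cases hk : k < n
    · exact congrFun h3 ⟨k, hk⟩
    · rw [hv.2 k (by omega), hw.2 k (by omega)]

theorem ee_cell (hA : Alt e) (s : Bool) (b : Bond B e) :
    b ∈ cellb ((ee s 0 b).1.1 + 1) (ee s 0 b).1.2.2 := by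
  obtain ⟨j, hj, hs, hmin⟩ := ex_level hA s 0 b
  rw [ee_eq hj hs hmin]
  intro k hk
  have hk' : j < k := hk
  exact (mid_digit _ _ _ _ hk').symm

theorem ee_inner (hA : Alt e) (s : Bool) (b : Bond B e) (n : ℕ) (ω : Bond B e)
    (h : ee s 0 b ∈ inner n ω) : b ∈ cellb n ω := by
  obtain ⟨j, hj, hs, hmin⟩ := ex_level hA s 0 b
  rw [ee_eq hj hs hmin] at h
  intro k hk
  have h1 : j < n := h.1
  rw [← h.2 k hk, mid_digit _ _ _ _ (by omega)]

theorem t_HFIN : P_HFIN := by
  intro B _ e hA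
  have hcb : Countable (Bond B e) := by
    have hs : Function.Surjective (fun x : (Σ n : ℕ, (Fin n → Pos B)) =>
        (⟨fun k => if h : k < x.1 then x.2 ⟨k, h⟩ else (0, e k), x.1, fun k hk =>
          dif_neg (by omega)⟩ : Bond B e)) := by
      rintro ⟨ω, n, hn⟩
      refine ⟨⟨n, fun k => ω k⟩, ?_⟩
      apply Subtype.ext
      funext k
      simp only
      split_ifs with hk
      · rfl
      · exact (hn k (by omega)).symm
    exact hs.countable
  refine ⟨hcb, ?_, ?_, ?_, ?_, ?_, ?_, ?_⟩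
  · unfold Site
    infer_instance
  · intro v
    apply (cell_fin (v.1.1 + 1) v.1.2.2).subset
    rintro b (hb | hb)
    · rw [← hb]; exact ee_cell hA true b
    · rw [← hb]; exact ee_cell hA false b
  · intro n ω
    obtain ⟨j, hj, hs, hmin⟩ := ex_level hA true n ω
    obtain ⟨j', hj', hs', hmin'⟩ := ex_level hA false n ω
    refine ⟨cell_fin n ω, inner_fin n ω, ?_, ?_, ?_⟩
    · rw [lend_ee, ee_eq hj hs hmin]
      intro h
      have : j < n := h.1
      omega
    · rw [rend_ee, ee_eq hj' hs' hmin']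
      intro h
      have : j' < n := h.1
      omega
    · rw [lend_ee, rend_ee, ee_eq hj hs hmin, ee_eq hj' hs' hmin']
      intro h
      have h1 : j = j' := congrArg (fun v : Site B e => v.1.1) h
      rw [h1, hs'] at hs
      exact absurd hs (by decide)
  · rintro n ω b (hb | hb)
    · exact ee_inner hA true b n ω hb
    · exact ee_inner hA false b n ω hb
  · intro n ω hn
    apply Subset.antisymm
    · rintro b (hb | hb)
      · exact ee_inner hA true b n ω hb
      · exact ee_inner hA false b n ω hb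
    · intro b hb
      have key : ∀ s : Bool, (b.1 0).2 = s → ee s 0 b ∈ inner n ω := by
        intro s hs
        rw [ee_eq (le_refl 0) hs (fun m _ h => absurd h (by omega))]
        refine ⟨hn, fun k hk => ?_⟩
        rw [mid_digit _ _ _ _ (by omega)]
        exact hb k hk
      rcases h : (b.1 0).2 with _ | _
      · right; exact key false h
      · left; exact key true h
  · intro n m hnm v hv
    exact ⟨lt_of_lt_of_le hv.1 hnm, fun k hk => hv.2 k (hnm.trans hk)⟩
  · intro v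
    obtain ⟨N, hN⟩ := v.1.2.2.2
    refine ⟨max N (v.1.1 + 1), by omega, fun k hk => ?_⟩
    rw [hN k (by omega)]
    rfl

theorem upd_same (ω : Bond B e) (n : ℕ) (p : Pos B) : (upd ω n p).1 n = p :=
  Function.update_self _ _ _

theorem upd_ne (ω : Bond B e) (n : ℕ) (p : Pos B) {k : ℕ} (h : k ≠ n) : (upd ω n p).1 k = ω.1 k :=
  Function.update_of_ne h _ _

theorem ee_upd_ne (hA : Alt e) (s s' : Bool) (hs : s' ≠ s) (n : ℕ) (ω : Bond B e) (i : Fin B) :
    ee s n (upd ω n (i, s')) = ee s (n + 1) ω := by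
  obtain ⟨j, hj, h1, hmin⟩ := ex_level hA s (n + 1) ω
  rw [ee_eq hj h1 hmin, ee_eq (j := j) (by omega) (by rw [upd_ne _ _ _ (by omega)]; exact h1) ?_,
    upd_ne _ _ _ (by omega)]
  · apply mid_congr
    intro k hk
    rw [upd_ne _ _ _ (by omega)]
  · intro m hm hmj
    rcases hm.eq_or_lt with h | h
    · rw [← h, upd_same]
      exact hs
    · rw [upd_ne _ _ _ (by omega)]
      exact hmin m h hmj

theorem ee_upd_eq (s : Bool) (n : ℕ) (ω : Bond B e) (i : Fin B) :
    ee s n (upd ω n (i, s)) = mid n i ω := by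
  rw [ee_eq (le_refl n) (by rw [upd_same]) (fun m hm h => absurd h (by omega)), upd_same]
  apply mid_congr
  intro k hk
  rw [upd_ne _ _ _ (by omega)]

theorem ee_zero (hA : Alt e) (s : Bool) (n : ℕ) (ω b : Bond B e) (hb : b ∈ cellb n ω) :
    ee s 0 b = ee s n ω ∨ ee s 0 b ∈ inner n ω := by
  obtain ⟨j, hj, h1, hmin⟩ := ex_level hA s 0 b
  rw [ee_eq hj h1 hmin]
  by_cases hjn : j < n
  · right
    refine ⟨hjn, fun k hk => ?_⟩
    rw [mid_digit _ _ _ _ (by omega)]
    exact hb k hk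
  · left
    push Not at hjn
    rw [ee_eq (j := j) hjn (by rw [← hb j hjn]; exact h1) (fun m hm hmj => by
      rw [← hb m hm]; exact hmin m (by omega) hmj), hb j hjn]
    apply mid_congr
    intro k hk
    exact hb k (by omega)

theorem t_ENDS : P_HFIN → P_ENDS := by
  intro _ B _ e hA n ω i
  refine ⟨ee_upd_ne hA true false (by decide) n ω i, ee_upd_eq false n ω i,
    ee_upd_eq true n ω i, ee_upd_ne hA false true (by decide) n ω i, ?_, ?_, ?_⟩
  · intro b
    constructor
    · intro hb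
      refine ⟨b.1 n, fun k hk => ?_⟩
      rcases hk.eq_or_lt with h | h
      · rw [← h, upd_same]
      · rw [upd_ne _ _ _ (by omega)]
        exact hb k h
    · rintro ⟨p, hb⟩ k hk
      rw [hb k (by omega), upd_ne _ _ _ (by omega)]
  · intro v
    constructor
    · rintro ⟨h1, h2⟩
      rcases (Nat.lt_succ_iff.1 h1).eq_or_lt with h | h
      · left
        refine ⟨v.1.2.1, ?_⟩
        refine site_ext (v := v) (w := mid n v.1.2.1 ω) h rfl fun k hk => ?_
        rw [mid_digit _ _ _ _ (by omega)]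
        exact h2 k (by omega)
      · right
        refine ⟨v.1.2.2.1 n, h, fun k hk => ?_⟩
        rcases hk.eq_or_lt with h' | h'
        · rw [← h', upd_same]
        · rw [upd_ne _ _ _ (by omega)]
          exact h2 k h'
    · rintro (⟨j, rfl⟩ | ⟨p, h1, h2⟩)
      · refine ⟨Nat.lt_succ_self n, fun k hk => ?_⟩
        rw [mid_digit _ _ _ _ (by omega)]
      · refine ⟨by omega, fun k hk => ?_⟩
        rw [h2 k (by omega), upd_ne _ _ _ (by omega)]
  · intro b hb
    exact ⟨ee_zero hA true n ω b hb, ee_zero hA false n ω b hb⟩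

end Pool.Agent.Q150.HEA
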