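import Pool.Agent.Q291.HEA.Stm2

/-! # Project HEA (helper291), jobs POS and ITER (helper150) -/

set_option autoImplicit false

namespace Pool.Agent.Q150.HEA

open MeasureTheory Filter Topology Set
open Pool.Agent.Q291.HEA

theorem log_cosh (u : ℝ) : |u| - Real.log 2 ≤ Real.log (Real.cosh u) ∧
    Real.log (Real.cosh u) ≤ |u| := by
  have h1 : Real.cosh u = Real.cosh |u| := (Real.cosh_abs u).symm
  rw [h1]
  have h2 := abs_nonneg u
  generalize |u| = t at *
  have h3 : Real.exp (-t) ≤ Real.exp t := Real.exp_le_exp.2 (by linarith)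
  have h4 := Real.exp_pos t
  have h5 := Real.exp_pos (-t)
  constructor
  · rw [Real.le_log_iff_exp_le (Real.cosh_pos t), Real.exp_sub, Real.exp_log (by norm_num),
      Real.cosh_eq]
    linarith
  · rw [Real.log_le_iff_le_exp (Real.cosh_pos t), Real.cosh_eq]
    linarith

theorem F_near (x y : ℝ) : |F x y - F0 x y| ≤ 1 / 2 := by
  unfold F F0
  have h1 := log_cosh (x + y)
  have h2 := log_cosh (x - y)
  have h3 : Real.log 2 ≤ 1 := by
    have := Real.log_two_lt_d9
    linarith
  rw [Real.log_div (Real.cosh_pos _).ne' (Real.cosh_pos _).ne', abs_le]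
  constructor <;> linarith [h1.1, h1.2, h2.1, h2.2]

/-- windows of `a` are dominated by longer windows of `b` -/
def Near (D : ℝ) (a b : Measure ℝ) : Prop :=
  ∀ x y : ℝ, a (Ico x y) ≤ b (Ico (x - D) (y + D))

theorem conv_Ico (a b : Measure ℝ) [SFinite a] [SFinite b] (x y : ℝ) :
    Measure.conv a b (Ico x y) = ∫⁻ s, b (Ico (x - s) (y - s)) ∂a := by
  unfold Measure.conv
  rw [Measure.map_apply (by fun_prop) measurableSet_Ico,
    Measure.prod_apply ((by fun_prop : Measurable fun z : ℝ × ℝ => z.1 + z.2) measurableSet_Ico)]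
  refine lintegral_congr fun s => ?_
  congr 1
  ext t
  simp only [mem_preimage, mem_Ico]
  constructor
  · rintro ⟨h1, h2⟩
    constructor <;> linarith
  · rintro ⟨h1, h2⟩
    constructor <;> linarith

theorem near_conv {D D' : ℝ} {a b a' b' : Measure ℝ} [SFinite a] [SFinite b] [SFinite a']
    [SFinite b'] (h : Near D a b) (h' : Near D' a' b') :
    Near (D + D') (Measure.conv a a') (Measure.conv b b') := by
  intro x y
  calc Measure.conv a a' (Ico x y) ≤ Measure.conv a b' (Ico (x - D') (y + D')) := by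
        rw [conv_Ico, conv_Ico]
        refine lintegral_mono fun s => (h' _ _).trans (le_of_eq ?_)
        congr 2 <;> ring
    _ = Measure.conv b' a (Ico (x - D') (y + D')) := by rw [Measure.conv_comm]
    _ ≤ Measure.conv b' b (Ico (x - (D + D')) (y + (D + D'))) := by
        rw [conv_Ico, conv_Ico]
        refine lintegral_mono fun s => (h _ _).trans (le_of_eq ?_)
        congr 2 <;> ring
    _ = _ := by rw [Measure.conv_comm]

theorem meas_F : Measurable fun z : ℝ × ℝ => F z.1 z.2 := by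
  unfold F
  have h1 : Measurable fun z : ℝ × ℝ => Real.cosh (z.1 + z.2) :=
    Real.measurable_cosh.comp (by fun_prop)
  have h2 : Measurable fun z : ℝ × ℝ => Real.cosh (z.1 - z.2) :=
    Real.measurable_cosh.comp (by fun_prop)
  exact (Real.measurable_log.comp (h1.div h2)).const_mul _

theorem meas_F0 : Measurable fun z : ℝ × ℝ => F0 z.1 z.2 := by
  unfold F0
  fun_prop

theorem prob_ser {f : ℝ → ℝ → ℝ} (hf : Measurable fun z : ℝ × ℝ => f z.1 z.2) (μ : Measure ℝ)
    [IsProbabilityMeasure μ] : IsProbabilityMeasure (ser f μ) :=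
  Measure.isProbabilityMeasure_map hf.aemeasurable

theorem prob_par (ν : Measure ℝ) [IsProbabilityMeasure ν] (n : ℕ) :
    IsProbabilityMeasure (par ν n) := by
  induction n with
  | zero => exact Measure.dirac.isProbabilityMeasure
  | succ n ih =>
    unfold par
    infer_instance

theorem near_ser (μ : Measure ℝ) [IsProbabilityMeasure μ] :
    Near (1 / 2) (ser F μ) (ser F0 μ) := by
  intro x y
  unfold ser
  rw [Measure.map_apply meas_F measurableSet_Ico, Measure.map_apply meas_F0 measurableSet_Ico]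
  refine measure_mono fun z hz => ?_
  rw [mem_preimage, mem_Ico] at hz ⊢
  have := abs_le.1 (F_near z.1 z.2)
  constructor <;> linarith [this.1, this.2, hz.1, hz.2]

theorem near_par (μ : Measure ℝ) [IsProbabilityMeasure μ] (n : ℕ) :
    Near (n / 2) (par (ser F μ) n) (par (ser F0 μ) n) := by
  have h1 := prob_ser meas_F μ
  have h2 := prob_ser meas_F0 μ
  induction n with
  | zero =>
    intro x y
    simp [par]
  | succ n ih =>
    have h3 := prob_par (ser F μ) n
    have h4 := prob_par (ser F0 μ) n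
    have h5 := near_conv (near_ser μ) ih
    have e : ((n + 1 : ℕ) : ℝ) / 2 = 1 / 2 + n / 2 := by push_cast; ring
    rw [e]
    exact h5

theorem t_POS : P_STEP → P_POS := by
  intro hS μ _ l p hl hp hp2 hsym B hB hc
  have hB0 : (0 : ℝ) ≤ B := Nat.cast_nonneg B
  have h1 := hS μ (l + B) p (by linarith) hp hp2 hsym hc B hB
  have h0 := prob_ser meas_F0 μ
  have h2 := prob_par (ser F0 μ) B
  intro x
  have h3 := near_par μ B x (x + l)
  have h4 := h1 (x - B / 2)
  refine le_trans ?_ h4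
  have h5 : Ico (x - (B : ℝ) / 2) (x + l + B / 2) = Ico (x - (B : ℝ) / 2) (x - B / 2 + (l + B)) := by
    congr 1
    ring
  rw [h5] at h3
  unfold Measure.real
  exact ENNReal.toReal_mono (measure_ne_top _ _) h3

theorem conc_half {μ : Measure ℝ} [IsFiniteMeasure μ] {l L q : ℝ} (h : Conc μ l q) (hl : L / 2 ≤ l) :
    Conc μ L (2 * q) := by
  intro x
  have h1 : Ico x (x + L) ⊆ Ico x (x + l) ∪ Ico (x + L / 2) (x + L / 2 + l) := by
    intro y hy
    rw [mem_Ico] at hy
    by_cases h2 : y < x + L / 2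
    · left
      rw [mem_Ico]
      constructor <;> linarith
    · right
      rw [mem_Ico]
      push Not at h2
      constructor <;> linarith
  refine (measureReal_mono h1 (measure_ne_top _ _)).trans ((measureReal_union_le _ _).trans ?_)
  linarith [h x, h (x + L / 2)]

theorem conc_mono {μ : Measure ℝ} {l p q : ℝ} (h : Conc μ l p) (hpq : p ≤ q) : Conc μ l q :=
  fun x => (h x).trans hpq

theorem t_ITER : P_LAWS → P_POS → P_ITER := by
  intro hL hP B hB
  obtain ⟨θ, hθ⟩ : ∃ θ : ℝ, θ = 999 / 1000 := ⟨_, rfl⟩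
  obtain ⟨N, hN⟩ : ∃ N : ℕ, N = 800 := ⟨_, rfl⟩
  have hθ0 : 0 < θ := by rw [hθ]; norm_num
  have hθ1 : θ < 1 := by rw [hθ]; norm_num
  have hθN : 2 * θ ^ N ≤ 9 / 10 := by
    have h1 : θ ^ 100 ≤ 905 / 1000 := by rw [hθ]; norm_num
    have h2 : θ ^ N = (θ ^ 100) ^ 8 := by rw [hN, ← pow_mul]
    have h3 : (θ ^ 100) ^ 8 ≤ (905 / 1000) ^ 8 := pow_le_pow_left₀ (by positivity) h1 8
    have h4 : ((905 : ℝ) / 1000) ^ 8 ≤ 45 / 100 := by norm_num
    rw [h2]
    linarith
  have hN0 : 0 < N := by omega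
  have hNr : (0 : ℝ) < N := by exact_mod_cast hN0
  have hBr : (4 : ℝ) ≤ B := by exact_mod_cast hB
  obtain ⟨L, hLd⟩ : ∃ L : ℝ, L = 2 * N * B := ⟨_, rfl⟩
  have hL0 : 0 < L := by rw [hLd]; positivity
  obtain ⟨ρ, hρ⟩ : ∃ ρ : ℝ, ρ = (9 / 10 : ℝ) ^ (1 / (N : ℝ)) := ⟨_, rfl⟩
  have hρ0 : 0 < ρ := by rw [hρ]; positivity
  have hρ1 : ρ < 1 := by
    rw [hρ]
    exact Real.rpow_lt_one (by norm_num) (by norm_num) (by positivity)
  have hρN : ρ ^ N = 9 / 10 := by
    rw [hρ, ← Real.rpow_natCast, ← Real.rpow_mul (by norm_num), one_div, inv_mul_cancel₀ hNr.ne',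
      Real.rpow_one]
  refine ⟨L, 2, ρ, hL0, by norm_num, hρ0, hρ1, ?_⟩
  intro μ _ hsym hc
  have hprob : ∀ n, IsProbabilityMeasure (lawN B μ n) := fun n => (hL B μ hsym n).1
  have hsy : ∀ n, Sym (lawN B μ n) := fun n => (hL B μ hsym n).2
  have step : ∀ (n : ℕ) (p : ℝ), 0 < p → p ≤ 1 / 2 → Conc (lawN B μ n) L p → ∀ i ≤ N,
      Conc (lawN B μ (n + i)) (L - i * B) (θ ^ i * p) := by
    intro n p hp hp2 h i
    induction i with
    | zero =>
      intro _
      simpa using h
    | succ i ih =>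
      intro hi
      have h1 := ih (by omega)
      have hiN : ((i : ℝ) + 1) ≤ N := by exact_mod_cast hi
      have hpr := hprob (n + i)
      have hθi : θ ^ i ≤ 1 := pow_le_one₀ hθ0.le hθ1.le
      have hθi0 : 0 < θ ^ i := by positivity
      have h2 := hP (lawN B μ (n + i)) (L - (i + 1) * B) (θ ^ i * p) (by
        rw [hLd]; nlinarith) (by positivity) (by nlinarith) (hsy _) B hB (by
          have e : L - ((i : ℝ) + 1) * B + B = L - i * B := by ring
          rw [e]
          exact h1)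
      have e : L - ((i + 1 : ℕ) : ℝ) * B = L - (i + 1) * B := by push_cast; ring
      have e2 : θ ^ (i + 1) * p = 999 / 1000 * (θ ^ i * p) := by rw [pow_succ, ← hθ]; ring
      rw [e, e2]
      exact h2
  have step2 : ∀ (n : ℕ) (p : ℝ), 0 < p → p ≤ 1 / 2 → Conc (lawN B μ n) L p → ∀ i ≤ N,
      Conc (lawN B μ (n + i)) L (2 * (θ ^ i * p)) := by
    intro n p hp hp2 h i hi
    have hpr := hprob (n + i)
    refine conc_half (step n p hp hp2 h i hi) ?_
    have hiN : (i : ℝ) ≤ N := by exact_mod_cast hi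
    rw [hLd]
    nlinarith
  have hmul : ∀ j : ℕ, Conc (lawN B μ (N * j)) L ((9 / 10) ^ j / 2) := by
    intro j
    induction j with
    | zero =>
      rw [mul_zero, pow_zero]
      exact hc
    | succ j ih =>
      have h1 : ((9 : ℝ) / 10) ^ j ≤ 1 := pow_le_one₀ (by norm_num) (by norm_num)
      have h2 := step2 (N * j) ((9 / 10) ^ j / 2) (by positivity) (by linarith) ih N le_rfl
      rw [mul_add, mul_one]
      refine conc_mono h2 ?_
      rw [pow_succ]
      have h3 : (0 : ℝ) < (9 / 10) ^ j := by positivity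
      nlinarith
  intro n
  have hn : n = N * (n / N) + n % N := (Nat.div_add_mod n N).symm
  have h1 : ((9 : ℝ) / 10) ^ (n / N) ≤ 1 := pow_le_one₀ (by norm_num) (by norm_num)
  have h2 := step2 (N * (n / N)) ((9 / 10) ^ (n / N) / 2) (by positivity) (by linarith)
    (hmul (n / N)) (n % N) (Nat.mod_lt n hN0).le
  rw [← hn] at h2
  refine conc_mono h2 ?_
  have h3 : ρ ^ n = (9 / 10) ^ (n / N) * ρ ^ (n % N) := by
    conv_lhs => rw [hn]
    rw [pow_add, pow_mul, hρN]
  rw [h3]
  have h4 : (9 : ℝ) / 10 ≤ ρ ^ (n % N) := by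
    rw [← hρN]
    exact pow_le_pow_of_le_one hρ0.le hρ1.le (Nat.mod_lt n hN0).le
  have h5 : θ ^ (n % N) ≤ 1 := pow_le_one₀ hθ0.le hθ1.le
  have h6 : (0 : ℝ) < (9 / 10) ^ (n / N) := by positivity
  nlinarith [mul_le_mul_of_nonneg_left h4 h6.le, mul_le_mul_of_nonneg_right h5 h6.le]

end Pool.Agent.Q150.HEA
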